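import Mathlib
import Pool.Agent.Lib.MP_8ca0c8_nt.Smooth2

/-!
# Multi-scale smoothing of the logarithm

The box averages of `log |x - y|` over `(a, a + 64⁻ʲ)`, `j < n`, with weights proportional to `2ʲ`
lose at most `4 / (2ⁿ - 1)` against `log |x - a|`.
-/

namespace Pool.Agent.STP

open Real MeasureTheory intervalIntegral

/-- the loss at one scale, in the variable `u` with `u ^ 6 = 2 η / (x - a)` -/
noncomputable def lossD (u : ℝ) : ℝ :=
  if 1 < u then 1 + 2 * Real.log 2 - 6 * Real.log u else u ^ 6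

/-- the bound for the total loss -/
noncomputable def lossB (u : ℝ) : ℝ :=
  if 1 < u then (10 * Real.log 2 - 1) + 6 * Real.log u - 3.2 * u else (32 / 31) * u ^ 6

lemma lossB_le (u : ℝ) (hu : 0 < u) : lossB u ≤ 4 := by
  unfold lossB
  split_ifs with h
  · have h1 : Real.log (u / 2) ≤ u / 2 - 1 := Real.log_le_sub_one_of_pos (by positivity)
    rw [Real.log_div hu.ne' two_ne_zero] at h1
    have h2 := Real.log_two_lt_d9
    linarith
  · push Not at h
    have h1 : u ^ 6 ≤ 1 := pow_le_one₀ hu.le h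
    linarith

lemma chord_log {u : ℝ} (h1 : 1 ≤ u) (h2 : u ≤ 2) : (u - 1) * Real.log 2 ≤ Real.log u := by
  have hc := strictConcaveOn_log_Ioi.concaveOn
  have h3 := hc.2 (show (1 : ℝ) ∈ Set.Ioi (0 : ℝ) from Set.mem_Ioi.2 one_pos)
    (show (2 : ℝ) ∈ Set.Ioi (0 : ℝ) from Set.mem_Ioi.2 two_pos) (show 0 ≤ 2 - u by linarith)
    (show 0 ≤ u - 1 by linarith) (by ring)
  simp only [smul_eq_mul, Real.log_one, mul_zero, zero_add, mul_one] at h3
  have e : 2 - u + (u - 1) * 2 = u := by ring
  rw [e] at h3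
  exact h3

lemma loss_step (u : ℝ) (hu : 0 < u) : lossD u + 2 * lossB (u / 2) ≤ lossB u := by
  rcases lt_or_ge 1 u with h1 | h1
  · rcases lt_or_ge 1 (u / 2) with h2 | h2
    · unfold lossD lossB
      rw [if_pos h1, if_pos h1, if_pos h2, Real.log_div hu.ne' two_ne_zero]
      linarith
    · unfold lossD lossB
      rw [if_pos h1, if_pos h1, if_neg (not_lt.2 h2)]
      have h3 : u ≤ 2 := by linarith
      have h4 := chord_log h1.le h3
      have h5 := Real.log_two_gt_d9
      have h6 : u ^ 6 ≤ 1 + 63 * (u - 1) := by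
        have e : 1 + 63 * (u - 1) - u ^ 6
            = (u - 1) * (62 - (u ^ 5 + u ^ 4 + u ^ 3 + u ^ 2 + u)) := by ring
        have a2 : u ^ 2 ≤ 2 ^ 2 := pow_le_pow_left₀ hu.le h3 2
        have a3 : u ^ 3 ≤ 2 ^ 3 := pow_le_pow_left₀ hu.le h3 3
        have a4 : u ^ 4 ≤ 2 ^ 4 := pow_le_pow_left₀ hu.le h3 4
        have a5 : u ^ 5 ≤ 2 ^ 5 := pow_le_pow_left₀ hu.le h3 5
        have h7 : 0 ≤ (u - 1) * (62 - (u ^ 5 + u ^ 4 + u ^ 3 + u ^ 2 + u)) :=
          mul_nonneg (by linarith) (by norm_num at a2 a3 a4 a5; linarith)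
        linarith
      have e1 : 2 * (32 / 31 * (u / 2) ^ 6) = u ^ 6 / 31 := by ring
      rw [e1]
      have h8 : (u - 1) * 0.6931471803 ≤ (u - 1) * Real.log 2 :=
        mul_le_mul_of_nonneg_left h5.le (by linarith)
      nlinarith
  · have h2 : ¬ 1 < u / 2 := by linarith
    unfold lossD lossB
    rw [if_neg (not_lt.2 h1), if_neg (not_lt.2 h1), if_neg h2]
    have e : u ^ 6 + 2 * (32 / 31 * (u / 2) ^ 6) = 32 / 31 * u ^ 6 := by ring
    rw [e]

lemma loss_sum_le (n : ℕ) : ∀ u : ℝ, 0 < u → u ≤ 2 ^ n →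
    ∑ j ∈ Finset.range n, 2 ^ j * lossD (u / 2 ^ j) ≤ lossB u := by
  induction n with
  | zero =>
    intro u hu hu1
    rw [pow_zero] at hu1
    rw [Finset.sum_range_zero, lossB, if_neg (not_lt.2 hu1)]
    positivity
  | succ n ih =>
    intro u hu hu1
    rw [Finset.sum_range_succ']
    have e : ∀ j, (2 : ℝ) ^ (j + 1) * lossD (u / 2 ^ (j + 1))
        = 2 * (2 ^ j * lossD (u / 2 / 2 ^ j)) := by
      intro j
      rw [pow_succ]
      have : u / (2 ^ j * 2) = u / 2 / 2 ^ j := by field_simp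
      rw [this]; ring
    simp only [e]
    rw [← Finset.mul_sum]
    have h1 := ih (u / 2) (by positivity) (by rw [pow_succ] at hu1; linarith)
    have h2 := loss_step u hu
    have e2 : (2 : ℝ) ^ 0 * lossD (u / 2 ^ 0) = lossD u := by simp
    rw [e2]
    linarith

lemma loss_sum (n : ℕ) (u : ℝ) (hu : 0 < u) :
    ∑ j ∈ Finset.range n, 2 ^ j * lossD (u / 2 ^ j) ≤ 4 := by
  rcases le_or_gt u (2 ^ n) with h | h
  · exact (loss_sum_le n u hu h).trans (lossB_le u hu)
  · refine le_trans ?_ ((loss_sum_le n (2 ^ n) (by positivity) le_rfl).trans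
      (lossB_le (2 ^ n) (by positivity)))
    refine Finset.sum_le_sum fun j hj => ?_
    refine mul_le_mul_of_nonneg_left ?_ (by positivity)
    have hj' := Finset.mem_range.1 hj
    have h1 : (1 : ℝ) < 2 ^ n / 2 ^ j := by
      rw [one_lt_div (by positivity)]
      exact pow_lt_pow_right₀ (by norm_num) hj'
    have h2 : (2 : ℝ) ^ n / 2 ^ j ≤ u / 2 ^ j :=
      div_le_div_of_nonneg_right h.le (by positivity)
    unfold lossD
    rw [if_pos (h1.trans_le h2), if_pos h1]
    have h3 := Real.log_le_log (by positivity) h2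
    linarith

/-- the loss at one scale -/
lemma scale_loss (x a : ℝ) {η : ℝ} (hη : 0 < η) (ht : 0 < x - a) {u : ℝ} (hu : 0 < u)
    (hu6 : u ^ 6 = 2 * η / (x - a)) :
    Real.log (x - a) - (∫ y in a..(a + η), Real.log (x - y)) / η ≤ lossD u := by
  set t := x - a with htt
  have hlogu : 6 * Real.log u = Real.log (2 * η / t) := by
    rw [← hu6, Real.log_pow]; norm_num
  have hint := intervalIntegrable_log_sub x a (a + η)
  have hlen : a + η - a = η := by ring
  have hlog2 : Real.log (2 * η / t) = Real.log 2 + Real.log η - Real.log t := by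
    rw [Real.log_div (by positivity) ht.ne', Real.log_mul two_ne_zero hη.ne']
  unfold lossD
  split_ifs with h
  · have h3 := integral_log_ge x a hη
    have h4 : Real.log (η / 2) - 1 ≤ (∫ y in a..(a + η), Real.log (x - y)) / η := by
      rw [le_div_iff₀ hη]; linarith
    rw [Real.log_div hη.ne' two_ne_zero] at h4
    rw [hlogu, hlog2]
    linarith
  · push Not at h
    have h6 : u ^ 6 ≤ 1 := pow_le_one₀ hu.le h
    have h2 : 2 * η ≤ t := by
      rw [hu6, div_le_one ht] at h6; exact h6
    have hlog : Real.log t - 2 * η / t ≤ Real.log (t - η) := by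
      have h3 : 0 < 1 - η / t := by
        rw [sub_pos, div_lt_one ht]; linarith
      have h4 : Real.log (t - η) = Real.log t + Real.log (1 - η / t) := by
        rw [← Real.log_mul ht.ne' h3.ne']
        congr 1
        field_simp
      have h5 : 1 - (1 - η / t)⁻¹ ≤ Real.log (1 - η / t) := Real.one_sub_inv_le_log_of_pos h3
      have h6 : (1 - η / t)⁻¹ ≤ 1 + 2 * η / t := by
        have h7 : η / t ≤ 1 / 2 := by
          rw [div_le_iff₀ ht]; linarith
        have h8 : 0 ≤ η / t := by positivity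
        rw [inv_le_iff_one_le_mul₀ h3]
        have : 2 * η / t = 2 * (η / t) := by ring
        rw [this]
        nlinarith
      rw [h4]; linarith
    have h3 := const_le_integral (c := Real.log t - 2 * η / t) (by linarith) hint (fun y hy => by
      refine hlog.trans ?_
      apply Real.log_le_log (by linarith)
      have := hy.2; linarith)
    rw [hlen] at h3
    have h4 : Real.log t - 2 * η / t ≤ (∫ y in a..(a + η), Real.log (x - y)) / η := by
      rw [le_div_iff₀ hη]; linarith
    rw [hu6]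
    linarith

lemma scale_neg (x a : ℝ) {η : ℝ} (hη : 0 < η) (ht : x - a < 0) :
    Real.log (x - a) ≤ (∫ y in a..(a + η), Real.log (x - y)) / η := by
  have hint := intervalIntegrable_log_sub x a (a + η)
  have h2 := const_le_integral (c := Real.log (x - a)) (by linarith) hint (fun y hy => by
    rw [← Real.log_abs (x - a), ← Real.log_abs (x - y)]
    apply Real.log_le_log (abs_pos.2 ht.ne)
    rw [abs_of_neg ht, abs_of_neg (by have := hy.1; linarith)]
    have := hy.1; linarith)
  have hlen : a + η - a = η := by ring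
  rw [hlen] at h2
  rw [le_div_iff₀ hη]; linarith

lemma scale_self (a : ℝ) {η : ℝ} (hη : 0 < η) :
    (∫ y in a..(a + η), Real.log (a - y)) / η = Real.log η - 1 := by
  rw [integral_log_sub]
  have e1 : a - (a + η) = -η := by ring
  rw [e1, Real.log_neg_eq_log, sub_self]
  field_simp
  ring

/-- the `j`-th scale -/
noncomputable def sc (j : ℕ) : ℝ := 1 / 64 ^ j

lemma sc_pos (j : ℕ) : 0 < sc j := by unfold sc; positivity

lemma sc_le_one (j : ℕ) : sc j ≤ 1 := by
  unfold sc
  rw [div_le_one (by positivity)]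
  exact one_le_pow₀ (by norm_num)

lemma sum_two_pow (n : ℕ) : ∑ j ∈ Finset.range n, (2 : ℝ) ^ j = 2 ^ n - 1 := by
  have := geom_sum_eq (by norm_num : (2 : ℝ) ≠ 1) n
  rw [this]; norm_num

/-- **Multi-scale smoothing.** -/
lemma multi_scale (n : ℕ) (x a : ℝ) (h : x - a ≠ 0) :
    (2 ^ n - 1) * Real.log (x - a) - 4 ≤
      ∑ j ∈ Finset.range n, 2 ^ j * ((∫ y in a..(a + sc j), Real.log (x - y)) / sc j) := by
  have hW : (2 ^ n - 1) * Real.log (x - a) = ∑ j ∈ Finset.range n, 2 ^ j * Real.log (x - a) := by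
    rw [← Finset.sum_mul, sum_two_pow]
  rcases lt_or_gt_of_ne h with h1 | h1
  · rw [hW]
    have : ∑ j ∈ Finset.range n, 2 ^ j * Real.log (x - a) ≤
        ∑ j ∈ Finset.range n, 2 ^ j * ((∫ y in a..(a + sc j), Real.log (x - y)) / sc j) :=
      Finset.sum_le_sum fun j _ =>
        mul_le_mul_of_nonneg_left (scale_neg x a (sc_pos j) h1) (by positivity)
    linarith
  · set v : ℝ := Real.exp (-(Real.log ((x - a) / 2)) / 6) with hv
    have hv0 : 0 < v := Real.exp_pos _
    have hv6 : v ^ 6 = 2 / (x - a) := by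
      rw [hv, ← Real.exp_nat_mul]
      have e : ((6 : ℕ) : ℝ) * (-(Real.log ((x - a) / 2)) / 6) = Real.log (2 / (x - a)) := by
        push_cast
        rw [Real.log_div h1.ne' two_ne_zero, Real.log_div two_ne_zero h1.ne']
        ring
      rw [e, Real.exp_log (by positivity)]
    have h2 := loss_sum n v hv0
    have h3 : ∀ j, Real.log (x - a) - (∫ y in a..(a + sc j), Real.log (x - y)) / sc j ≤
        lossD (v / 2 ^ j) := by
      intro j
      refine scale_loss x a (sc_pos j) h1 (by positivity) ?_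
      rw [div_pow, hv6, sc, ← pow_mul, mul_comm j 6, pow_mul]
      norm_num
      field_simp
    have h4 : ∑ j ∈ Finset.range n, 2 ^ j * (Real.log (x - a)
        - (∫ y in a..(a + sc j), Real.log (x - y)) / sc j) ≤ 4 :=
      (Finset.sum_le_sum fun j _ => mul_le_mul_of_nonneg_left (h3 j) (by positivity)).trans h2
    simp only [mul_sub] at h4
    rw [Finset.sum_sub_distrib, ← hW] at h4
    linarith

lemma log_sc (j : ℕ) : Real.log (sc j) = -(6 * Real.log 2) * j := by
  unfold sc
  rw [one_div, Real.log_inv, Real.log_pow]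
  have : Real.log (64 : ℝ) = 6 * Real.log 2 := by
    rw [show (64 : ℝ) = 2 ^ 6 by norm_num, Real.log_pow]; norm_num
  rw [this]; ring

lemma multi_self (n : ℕ) (a : ℝ) :
    -((2 ^ n - 1) * (1 + 6 * Real.log 2 * ((n : ℝ) - 1))) ≤
      ∑ j ∈ Finset.range n, 2 ^ j * ((∫ y in a..(a + sc j), Real.log (a - y)) / sc j) := by
  have h1 : ∀ j ∈ Finset.range n, (2 : ℝ) ^ j * (-(1 + 6 * Real.log 2 * ((n : ℝ) - 1))) ≤
      2 ^ j * ((∫ y in a..(a + sc j), Real.log (a - y)) / sc j) := by
    intro j hj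
    refine mul_le_mul_of_nonneg_left ?_ (by positivity)
    rw [scale_self a (sc_pos j), log_sc]
    have hj' : (j : ℝ) + 1 ≤ n := by exact_mod_cast Finset.mem_range.1 hj
    have h2 : 0 < Real.log 2 := Real.log_pos (by norm_num)
    nlinarith
  have h2 := Finset.sum_le_sum h1
  rw [← Finset.sum_mul, sum_two_pow] at h2
  linarith

lemma sum_scale_mean (n : ℕ) : ∑ j ∈ Finset.range n, (2 : ℝ) ^ j * sc j ≤ 32 / 31 := by
  have e : ∀ j, (2 : ℝ) ^ j * sc j = (1 / 32) ^ j := by
    intro j
    unfold sc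
    rw [show (64 : ℝ) = 2 * 32 by norm_num, mul_pow, one_div_pow]
    field_simp
  simp only [e]
  rw [geom_sum_eq (by norm_num)]
  have : (0 : ℝ) ≤ (1 / 32) ^ n := by positivity
  have e2 : (((1 : ℝ) / 32) ^ n - 1) / (1 / 32 - 1) = (32 / 31) * (1 - (1 / 32) ^ n) := by
    field_simp; ring
  rw [e2]
  linarith

end Pool.Agent.STP
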