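import Mathlib
import Pool.Agent.Lib.MP_8ca0c8_nt.Smooth7
import Pool.Agent.Lib.MP_8ca0c8_nt_TL.MS

/-!
# The multi-scale density of a totally positive algebraic integer
-/

namespace Pool.Agent.STP

open Real MeasureTheory intervalIntegral Polynomial

/-- the multi-scale smoothed density -/
noncomputable def psi (Z : Finset ℝ) (s : ℝ) (n : ℕ) (y : ℝ) : ℝ :=
  ∑ j ∈ Finset.range n, (2 ^ j / (2 ^ n - 1)) * phi Z s (sc j) y

variable {Z : Finset ℝ} {s B : ℝ} {n : ℕ}

lemma W_pos (hn : 1 ≤ n) : (0 : ℝ) < 2 ^ n - 1 := by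
  have : (2 : ℝ) ^ 1 ≤ 2 ^ n := pow_le_pow_right₀ (by norm_num) hn
  linarith

lemma sum_w (hn : 1 ≤ n) : ∑ j ∈ Finset.range n, (2 : ℝ) ^ j / (2 ^ n - 1) = 1 := by
  rw [← Finset.sum_div, sum_two_pow, div_self (W_pos hn).ne']

lemma integral_psi (hZ : ∀ a ∈ Z, 0 ≤ a ∧ a + 1 ≤ B) (hB : 17 ≤ B) {g : ℝ → ℝ}
    (hg : IntervalIntegrable g volume 0 B) (hne : Z.Nonempty) (hs0 : 0 < s) (hs1 : s < 1)
    (hn : 1 ≤ n) :
    ∫ y in (0 : ℝ)..B, psi Z s n y * g y =
      ((1 - s) / (Z.card * (2 ^ n - 1))) * (∑ a ∈ Z, ∑ j ∈ Finset.range n,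
        2 ^ j * ((∫ y in a..(a + sc j), g y) / sc j))
      + (s / 16) * ∫ y in (1 : ℝ)..17, g y := by
  have hd0 : (0 : ℝ) < Z.card := by exact_mod_cast Finset.card_pos.2 hne
  have hZj : ∀ j, ∀ a ∈ Z, 0 ≤ a ∧ a + sc j ≤ B := fun j a ha =>
    ⟨(hZ a ha).1, by have := (hZ a ha).2; have := sc_le_one j; linarith⟩
  have hdens := fun j => isDensity_phi (s := s) hne (hZj j) (sc_pos j) hB hs0 hs1
  have e : ∀ y, psi Z s n y * g y = ∑ j ∈ Finset.range n, (2 ^ j / (2 ^ n - 1)) *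
      (phi Z s (sc j) y * g y) := by
    intro y
    rw [psi, Finset.sum_mul]
    exact Finset.sum_congr rfl fun j _ => by ring
  simp only [e]
  rw [intervalIntegral.integral_finsetSum fun j _ => ((hdens j).mul_int hg).const_mul _]
  simp only [intervalIntegral.integral_const_mul]
  have e2 : ∀ j ∈ Finset.range n, (2 : ℝ) ^ j / (2 ^ n - 1) *
      ∫ y in (0 : ℝ)..B, phi Z s (sc j) y * g y
      = ((1 - s) / (Z.card * (2 ^ n - 1))) * (∑ a ∈ Z,
        2 ^ j * ((∫ y in a..(a + sc j), g y) / sc j))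
        + (2 ^ j / (2 ^ n - 1)) * ((s / 16) * ∫ y in (1 : ℝ)..17, g y) := by
    intro j _
    rw [integral_phi (hZj j) (sc_pos j).le hB hg, mul_add]
    congr 1
    rw [← Finset.mul_sum, ← Finset.sum_div]
    have h1 := (sc_pos j).ne'
    have h2 := (W_pos hn).ne'
    have h3 := hd0.ne'
    field_simp
  rw [Finset.sum_congr rfl e2, Finset.sum_add_distrib, ← Finset.mul_sum, ← Finset.sum_mul, sum_w hn,
    one_mul, Finset.sum_comm]

lemma isDensity_psi (hne : Z.Nonempty) (hZ : ∀ a ∈ Z, 0 ≤ a ∧ a + 1 ≤ B) (hB : 17 ≤ B)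
    (hs0 : 0 < s) (hs1 : s < 1) (hn : 1 ≤ n) : IsDensity 0 B (64 ^ n + 1) (psi Z s n) := by
  have hZj : ∀ j, ∀ a ∈ Z, 0 ≤ a ∧ a + sc j ≤ B := fun j a ha =>
    ⟨(hZ a ha).1, by have := (hZ a ha).2; have := sc_le_one j; linarith⟩
  have hdens := fun j => isDensity_phi (s := s) hne (hZj j) (sc_pos j) hB hs0 hs1
  have hW := W_pos hn
  refine ⟨by linarith, by positivity, ?_, ?_, ?_, ?_⟩
  · unfold psi
    exact Finset.measurable_sum _ fun j _ => (hdens j).meas.const_mul _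
  · intro y
    exact Finset.sum_nonneg fun j _ => mul_nonneg (by positivity) ((hdens j).nonneg y)
  · intro y
    have h1 : ∀ j ∈ Finset.range n, (2 : ℝ) ^ j / (2 ^ n - 1) * phi Z s (sc j) y ≤
        (2 : ℝ) ^ j / (2 ^ n - 1) * (64 ^ n + 1) := by
      intro j hj
      refine mul_le_mul_of_nonneg_left (((hdens j).le y).trans ?_) (by positivity)
      have h2 : (1 - s) / sc j ≤ 64 ^ n := by
        unfold sc
        rw [div_div_eq_mul_div, div_one]
        have h3 : (64 : ℝ) ^ j ≤ 64 ^ n :=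
          pow_le_pow_right₀ (by norm_num) (Finset.mem_range.1 hj).le
        have h4 : (0 : ℝ) ≤ 64 ^ j := by positivity
        nlinarith
      linarith
    refine (Finset.sum_le_sum h1).trans (le_of_eq ?_)
    rw [← Finset.sum_mul, sum_w hn, one_mul]
  · unfold psi
    rw [intervalIntegral.integral_finsetSum fun j _ => ((hdens j).int _ _).const_mul _]
    simp only [intervalIntegral.integral_const_mul]
    rw [Finset.sum_congr rfl fun j _ => by rw [(hdens j).mass, mul_one]]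
    exact sum_w hn

end Pool.Agent.STP
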