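import Mathlib
import Pool.Agent.Lib.MP_8ca0c8_nt_TL.Dens

/-!
# A certificate from one totally positive algebraic integer, with explicit loss
-/

namespace Pool.Agent.STP

open Real MeasureTheory intervalIntegral Polynomial

variable {Z : Finset ℝ}

lemma extra_ge {s : ℝ} (hs0 : 0 < s) (x : ℝ) :
    1.07 * s ≤ (s / 16) * ∫ y in (1 : ℝ)..17, Real.log (x - y) := by
  have h1 := integral_log_ge x 1 (l := 16) (by norm_num)
  have e : (1 : ℝ) + 16 = 17 := by norm_num
  rw [e] at h1
  have h2 := log_eight_ge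
  have h3 : (16 : ℝ) * 1.07 ≤ ∫ y in (1 : ℝ)..17, Real.log (x - y) := by linarith
  have h4 := mul_le_mul_of_nonneg_left h3 (by positivity : 0 ≤ s / 16)
  linarith

theorem exists_certR_multi {P : ℤ[X]} (hP : P.Monic) (hirr : Irreducible P)
    (hroots : toR P = ∏ a ∈ Z, (X - C a)) (hpos : ∀ a ∈ Z, 0 < a) (hne : Z.Nonempty) {t : ℝ}
    (ht : 0 ≤ t) (hT : ∑ a ∈ Z, a ≤ t * Z.card) {S n : ℕ} (hS : 2 ≤ S) (hn1 : 1 ≤ n)
    (hn : 8 * (S : ℝ) ≤ 2 ^ n - 1)
    (hd : 1 + 6 * Real.log 2 * ((n : ℝ) - 1) < 0.57 * (1 / S) * Z.card)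
    {q : ℝ} (hq : t + 10 / S < q) :
    ∃ (N : ℕ) (hN : 0 < N) (r : Fin N → ℝ) (x : Fin (N + 1) → ℝ) (b : ℕ),
      CertR r x ![P, X] ![b, 1] ∧ (∑ l, r l) / N < q ∧ ∀ a ∈ Z, a < r ⟨N - 1, by omega⟩ := by
  classical
  have hS0 : (0 : ℝ) < S := by exact_mod_cast (by omega : 0 < S)
  have hS2 : (2 : ℝ) ≤ S := by exact_mod_cast hS
  have hd0 : (0 : ℝ) < Z.card := by exact_mod_cast Finset.card_pos.2 hne
  set d : ℝ := (Z.card : ℝ) with hdd
  set s : ℝ := 1 / S with hs
  have hs0 : 0 < s := by positivity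
  have hs1 : s ≤ 1 / 2 := by rw [hs, div_le_div_iff₀ hS0 (by norm_num)]; linarith
  have h1s : 0 < 1 - s := by linarith
  set W : ℝ := 2 ^ n - 1 with hW
  have hW0 : 0 < W := by linarith
  have hWs : 4 / W ≤ s / 2 := by
    rw [hs, div_div, div_le_div_iff₀ hW0 (by positivity)]
    linarith
  set V : ℝ := 1 + 6 * Real.log 2 * ((n : ℝ) - 1) with hV
  have hV0 : 0 ≤ V := by
    have h1 : 0 < Real.log 2 := Real.log_pos (by norm_num)
    have h2 : (1 : ℝ) ≤ n := by exact_mod_cast hn1
    have h3 : 0 ≤ 6 * Real.log 2 * ((n : ℝ) - 1) := mul_nonneg (by linarith) (by linarith)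
    linarith
  set B : ℝ := ∑ a ∈ Z, a + 1 + 17 with hB
  have hsum0 : 0 ≤ ∑ a ∈ Z, a := Finset.sum_nonneg fun a ha => (hpos a ha).le
  have hB17 : 17 ≤ B := by rw [hB]; linarith
  have hZB : ∀ a ∈ Z, 0 ≤ a ∧ a + 1 ≤ B := by
    intro a ha
    have := Finset.single_le_sum (f := fun a : ℝ => a) (fun b hb => (hpos b hb).le) ha
    exact ⟨(hpos a ha).le, by rw [hB]; linarith⟩
  have hφ := isDensity_psi (s := s) hne hZB hB17 hs0 (by linarith) hn1
  have hint : ∀ x : ℝ, IntervalIntegrable (fun y => Real.log (x - y)) volume 0 B :=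
    fun x => intervalIntegrable_log_sub x 0 B
  set c : ℝ := (1 - s) / (d * W) with hc
  have hc0 : 0 < c := by positivity
  have hcW : c * W = (1 - s) / d := by rw [hc]; field_simp
  have hcd : c * (4 * d) = (1 - s) * (4 / W) := by rw [hc]; field_simp
  set M : ℝ → ℝ → ℝ := fun x a => ∑ j ∈ Finset.range n,
    2 ^ j * ((∫ y in a..(a + sc j), Real.log (x - y)) / sc j) with hM
  have hformula : ∀ x : ℝ, ∫ y in (0 : ℝ)..B, psi Z s n y * Real.log (x - y)
      = c * (∑ a ∈ Z, M x a) + (s / 16) * ∫ y in (1 : ℝ)..17, Real.log (x - y) :=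
    fun x => integral_psi hZB hB17 (hint x) hne hs0 (by linarith) hn1
  have hMge : ∀ x a, x - a ≠ 0 → W * Real.log (x - a) - 4 ≤ M x a := fun x a h =>
    multi_scale n x a h
  have hextra := fun x => extra_ge hs0 x
  have hWs' : (1 - s) * (4 / W) ≤ s / 2 := by
    have : 0 ≤ 4 / W := by positivity
    nlinarith
  refine exists_certR hP hirr hroots hne hφ
    (fun a ha => ⟨(hZB a ha).1, by have := (hZB a ha).2; linarith⟩) hS
    (δ := s / 2) (by positivity) ?_ ?_ ?_ ?_ ?_
  · -- domination
    intro x _ hxZ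
    have h1 : ∑ a ∈ Z, (W * Real.log (x - a) - 4) ≤ ∑ a ∈ Z, M x a :=
      Finset.sum_le_sum fun a ha => hMge x a (fun h0 => hxZ (by rw [sub_eq_zero.1 h0]; exact ha))
    rw [Finset.sum_sub_distrib, ← Finset.mul_sum, Finset.sum_const, nsmul_eq_mul, ← hdd] at h1
    have h2 := mul_le_mul_of_nonneg_left h1 hc0.le
    have h3 := hextra x
    rw [hformula x]
    have e1 : ((S : ℝ) - 1) / (S * d) = (1 - s) / d := by rw [hs]; field_simp
    rw [← hdd, e1]
    have e2 : c * (W * ∑ a ∈ Z, Real.log (x - a) - d * 4)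
        = (1 - s) / d * ∑ a ∈ Z, Real.log (x - a) - (1 - s) * (4 / W) := by
      rw [← hcd, ← hcW]; ring
    rw [e2] at h2
    linarith
  · -- resultant with `P`
    have hterm : ∀ a ∈ Z, c * (-(W * V) + (W * ∑ b ∈ Z.erase a, Real.log (a - b) - d * 4))
        + 1.07 * s ≤ ∫ y in (0 : ℝ)..B, psi Z s n y * Real.log (a - y) := by
      intro a ha
      rw [hformula a, ← Finset.add_sum_erase Z _ ha]
      have h1 : ∑ b ∈ Z.erase a, (W * Real.log (a - b) - 4) ≤ ∑ b ∈ Z.erase a, M a b :=
        Finset.sum_le_sum fun b hb => hMge a b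
          (sub_ne_zero.2 (Finset.ne_of_mem_erase hb).symm)
      rw [Finset.sum_sub_distrib, ← Finset.mul_sum, Finset.sum_const, nsmul_eq_mul] at h1
      have h2 : -(W * V) ≤ M a a := multi_self n a
      have h3 := hextra a
      have h4 : ((Z.erase a).card : ℝ) ≤ d := by
        rw [hdd]; exact_mod_cast Finset.card_le_card (Finset.erase_subset a Z)
      have h5 : -(W * V) + (W * ∑ b ∈ Z.erase a, Real.log (a - b) - d * 4) ≤
          M a a + ∑ b ∈ Z.erase a, M a b := by linarith
      have h6 := mul_le_mul_of_nonneg_left h5 hc0.le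
      linarith
    have hsum := Finset.sum_le_sum hterm
    refine lt_of_lt_of_le ?_ hsum
    rw [Finset.sum_add_distrib, ← Finset.mul_sum, Finset.sum_add_distrib, Finset.sum_sub_distrib,
      ← Finset.mul_sum, Finset.sum_const, Finset.sum_const, Finset.sum_const, nsmul_eq_mul,
      nsmul_eq_mul, nsmul_eq_mul, ← hdd]
    have h0 := sum_log_sub_nonneg hroots
    have h1 : c * (d * -(W * V) + (W * 0 - d * (d * 4))) ≤
        c * (d * -(W * V) + (W * ∑ a ∈ Z, ∑ b ∈ Z.erase a, Real.log (a - b) - d * (d * 4))) := by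
      refine mul_le_mul_of_nonneg_left ?_ hc0.le
      have := mul_nonneg hW0.le h0
      linarith
    have h2 : c * (d * -(W * V) + (W * 0 - d * (d * 4))) = -((1 - s) * V)
        - d * ((1 - s) * (4 / W)) := by
      rw [← hcd]
      have e : c * (d * -(W * V)) = -(c * W * (d * V)) := by ring
      have e2 : (1 - s) / d * (d * V) = (1 - s) * V := by field_simp
      have e3 : c * (d * -(W * V)) = -((1 - s) * V) := by rw [e, hcW, e2]
      linear_combination e3
    have h3 : (1 - s) * V ≤ V := by nlinarith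
    have h4 : d * ((1 - s) * (4 / W)) ≤ d * (s / 2) := mul_le_mul_of_nonneg_left hWs' hd0.le
    have h5 : V < 0.57 * s * d := hd
    linarith
  · -- resultant with `X`
    rw [hformula 0]
    have hM0 : ∀ a ∈ Z, W * Real.log a - 4 ≤ M 0 a ∧ W * Real.log a ≤ M 0 a := by
      intro a ha
      have ha0 := hpos a ha
      have h2 : W * Real.log a ≤ M 0 a := by
        rw [hM]
        simp only
        rw [hW, ← sum_two_pow, Finset.sum_mul]
        refine Finset.sum_le_sum fun j _ => mul_le_mul_of_nonneg_left ?_ (by positivity)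
        have := scale_neg 0 a (sc_pos j) (by linarith)
        rwa [zero_sub, Real.log_neg_eq_log] at this
      exact ⟨by linarith, h2⟩
    have h1 : W * ∑ a ∈ Z, Real.log a ≤ ∑ a ∈ Z, M 0 a := by
      rw [Finset.mul_sum]
      exact Finset.sum_le_sum fun a ha => (hM0 a ha).2
    have h2 := sum_log_nonneg hroots hpos
    have h3 : 0 ≤ c * ∑ a ∈ Z, M 0 a :=
      mul_nonneg hc0.le (le_trans (mul_nonneg hW0.le h2) h1)
    have h4 := hextra 0
    have h5 : 0 < 1.07 * s := by positivity
    linarith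
  · -- the last point
    intro a ha
    have hcdf := hφ.cdf_sub a B
    rw [hφ.cdf_B] at hcdf
    have hZj : ∀ j, ∀ a ∈ Z, 0 ≤ a ∧ a + sc j ≤ B := fun j a ha =>
      ⟨(hZB a ha).1, by have := (hZB a ha).2; have := sc_le_one j; linarith⟩
    have hdens := fun j => isDensity_phi (s := s) hne (hZj j) (sc_pos j) hB17 hs0 (by linarith)
    have haB : a ≤ B := by have := (hZB a ha).2; linarith
    have h0 : (1 - s) / (d * 1) ≤ ∫ y in a..B, phi Z s (sc 0) y := by
      have hsc : sc 0 = 1 := by unfold sc; norm_num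
      have h2 : ∫ y in a..B, ((1 - s) / (d * 1)) *
          ((Set.Ioc a (a + 1)).indicator (fun _ => (1 : ℝ)) y * 1) = (1 - s) / (d * 1) := by
        rw [intervalIntegral.integral_const_mul,
          integral_indicator_mul le_rfl (by linarith) (hZB a ha).2]
        simp
      rw [← h2]
      refine intervalIntegral.integral_mono_on haB
        ((intervalIntegrable_indicator_mul intervalIntegrable_const).const_mul _)
        ((hdens 0).int _ _) ?_
      intro y _
      rw [phi, hsc, hdd]
      have hi0 : ∀ (u v y : ℝ), 0 ≤ (Set.Ioc u v).indicator (fun _ => (1 : ℝ)) y := fun u v y =>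
        Set.indicator_nonneg (fun _ _ => zero_le_one) y
      have h3 := Finset.single_le_sum (f := fun a : ℝ => ((1 - s) / (Z.card * 1)) *
        (Set.Ioc a (a + 1)).indicator (fun _ => (1 : ℝ)) y)
        (fun b _ => mul_nonneg (by positivity) (hi0 _ _ _)) ha
      have h4 : 0 ≤ (s / 16) * (Set.Ioc (1 : ℝ) 17).indicator (fun _ => (1 : ℝ)) y :=
        mul_nonneg (by positivity) (hi0 _ _ _)
      have h5 : (Set.Ioc a (a + 1)).indicator (fun _ => (1 : ℝ)) y * 1
          = (Set.Ioc a (a + 1)).indicator (fun _ => (1 : ℝ)) y := mul_one _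
      rw [h5]
      linarith
    have h1 : (2 ^ 0 / W) * ∫ y in a..B, phi Z s (sc 0) y ≤ ∫ y in a..B, psi Z s n y := by
      unfold psi
      rw [intervalIntegral.integral_finsetSum fun j _ => ((hdens j).int _ _).const_mul _]
      simp only [intervalIntegral.integral_const_mul]
      exact Finset.single_le_sum (f := fun j => (2 : ℝ) ^ j / W * ∫ y in a..B, phi Z s (sc j) y)
        (fun j _ => mul_nonneg (by positivity)
          (intervalIntegral.integral_nonneg haB fun y _ => (hdens j).nonneg y))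
        (Finset.mem_range.2 (by omega : 0 < n))
    have h2 : 0 < (1 - s) / (d * 1) := by positivity
    have h3 : 0 < (2 ^ 0 / W) * ∫ y in a..B, phi Z s (sc 0) y :=
      mul_pos (by positivity) (h2.trans_le h0)
    linarith
  · -- the mean
    rw [integral_psi hZB hB17 (g := fun y => y) (continuous_id.intervalIntegrable 0 B) hne hs0
      (by linarith) hn1, ← hdd, ← hc]
    have h1 : ∀ a ∈ Z, ∑ j ∈ Finset.range n, 2 ^ j * ((∫ y in a..(a + sc j), y) / sc j)
        ≤ W * a + 16 / 31 := by
      intro a _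
      have e : ∀ j, (2 : ℝ) ^ j * ((∫ y in a..(a + sc j), y) / sc j)
          = 2 ^ j * a + (1 / 2) * (2 ^ j * sc j) := by
        intro j
        have h := (sc_pos j).ne'
        rw [integral_id]
        field_simp
        ring
      simp only [e]
      rw [Finset.sum_add_distrib, ← Finset.sum_mul, sum_two_pow, ← Finset.mul_sum]
      have := sum_scale_mean n
      linarith
    have h2 := Finset.sum_le_sum h1
    rw [Finset.sum_add_distrib, ← Finset.mul_sum, Finset.sum_const, nsmul_eq_mul, ← hdd] at h2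
    have h3 : c * (∑ a ∈ Z, ∑ j ∈ Finset.range n, 2 ^ j * ((∫ y in a..(a + sc j), y) / sc j)) ≤
        c * (W * (t * d) + d * (16 / 31)) := by
      refine mul_le_mul_of_nonneg_left (h2.trans ?_) hc0.le
      have := mul_le_mul_of_nonneg_left hT hW0.le
      linarith
    have h4 : c * (W * (t * d) + d * (16 / 31)) = (1 - s) * t + (1 - s) * (4 / W) * (4 / 31) := by
      rw [← hcd]
      have e : c * (W * (t * d)) = c * W * (t * d) := by ring
      have e2 : (1 - s) / d * (t * d) = (1 - s) * t := by field_simp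
      have e3 : c * (W * (t * d)) = (1 - s) * t := by rw [e, hcW, e2]
      linear_combination e3
    have h5 : s / 16 * ((17 ^ 2 - 1 ^ 2) / 2) = 9 * s := by ring
    rw [integral_id, h5]
    have h6 : (10 : ℝ) / S = 10 * s := by rw [hs]; ring
    rw [h6] at hq
    have h7 : (1 - s) * t ≤ t := by
      have := mul_nonneg hs0.le ht
      linarith
    have h8 : (1 - s) * (4 / W) * (4 / 31) ≤ s := by
      have := mul_le_mul_of_nonneg_right hWs' (by norm_num : (0 : ℝ) ≤ 4 / 31)
      linarith
    linarith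

end Pool.Agent.STP
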