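import Mathlib
import Pool.Agent.Lib.MP_8ca0c8_nt.Smooth9
import Pool.Agent.Lib.MP_8ca0c8_nt_TL.Params

/-!
# The logarithmic lower term for the trace of a totally positive algebraic integer
-/

namespace Pool.Agent.STP

open Polynomial Topology

/-- The polynomial data of a totally positive algebraic integer, with its degree. -/
lemma exists_data_deg {α : ℂ} (hα : IsTotallyPositive α) : ∃ (P : ℤ[X]) (Z : Finset ℝ),
    P.Monic ∧ Irreducible P ∧ toR P = ∏ a ∈ Z, (X - C a) ∧ (∀ a ∈ Z, 0 < a) ∧ Z.Nonempty ∧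
      meanTrace α = (((∑ a ∈ Z, a) / Z.card : ℝ) : ℂ) ∧ (minpoly ℚ α).natDegree = Z.card := by
  classical
  obtain ⟨P, Z, h1, h2, h3, h4, h5, h6⟩ := exists_data hα
  obtain ⟨hint, hroots⟩ := hα
  have hintQ : IsIntegral ℚ α := hint.tower_top
  set P' := minpoly ℤ α with hP'
  have hPm : P'.Monic := minpoly.monic hint
  have hmap : minpoly ℚ α = P'.map (algebraMap ℤ ℚ) :=
    minpoly.isIntegrallyClosed_eq_field_fractions' ℚ hint
  set M := (minpoly ℚ α).aroots ℂ with hM
  have hsep : (minpoly ℚ α).Separable := (minpoly.irreducible hintQ).separable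
  have hnd : M.Nodup := nodup_roots hsep.map
  have hre : ∀ z ∈ M, ((z.re : ℝ) : ℂ) = z := by
    intro z hz
    obtain ⟨r, _, hr⟩ := hroots z hz
    rw [hr, Complex.ofReal_re]
  have hpos : ∀ z ∈ M, 0 < z.re := by
    intro z hz
    obtain ⟨r, hr0, hr⟩ := hroots z hz
    rw [hr, Complex.ofReal_re]; exact hr0
  have hndre : (M.map Complex.re).Nodup := by
    refine hnd.map_on fun x hx y hy hxy => ?_
    rw [← hre x hx, ← hre y hy, hxy]
  set Z' := (M.map Complex.re).toFinset with hZ'
  have hZval : Z'.val = M.map Complex.re := by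
    rw [hZ', Multiset.toFinset_val, hndre.dedup]
  have hPC : P'.map (algebraMap ℤ ℂ) = (M.map fun z => X - C z).prod := by
    have e1 : P'.map (algebraMap ℤ ℂ) = (minpoly ℚ α).map (algebraMap ℚ ℂ) := by
      rw [hmap, Polynomial.map_map]; congr 1
    rw [e1]
    have h2 := (IsAlgClosed.splits ((minpoly ℚ α).map (algebraMap ℚ ℂ))).eq_prod_roots
    rw [((minpoly.monic hintQ).map (algebraMap ℚ ℂ)).leadingCoeff, C_1, one_mul] at h2
    exact h2
  have htoR : toR P' = ∏ a ∈ Z', (X - C a) := by
    have h1 : ∏ a ∈ Z', (X - C a) = (M.map fun z => X - C z.re).prod := by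
      have e : ∏ a ∈ Z', (X - C a : ℝ[X]) = (Z'.val.map fun a => (X - C a : ℝ[X])).prod := rfl
      rw [e, hZval, Multiset.map_map]
      rfl
    apply Polynomial.map_injective (algebraMap ℝ ℂ) (algebraMap ℝ ℂ).injective
    have h2 : (toR P').map (algebraMap ℝ ℂ) = P'.map (algebraMap ℤ ℂ) := by
      rw [toR, Polynomial.map_map]; congr 1
    rw [h2, hPC, h1, Polynomial.map_multiset_prod, Multiset.map_map]
    congr 1
    refine Multiset.map_congr rfl fun z hz => ?_
    simp only [Function.comp_apply, Polynomial.map_sub, Polynomial.map_X, Polynomial.map_C]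
    congr 2
    exact (hre z hz).symm
  have hcard : Multiset.card M = Z'.card := by
    have : Z'.card = Multiset.card Z'.val := rfl
    rw [this, hZval, Multiset.card_map]
  have hcardM : Multiset.card M = (minpoly ℚ α).natDegree := by
    have h1 := splits_iff_card_roots.1 (IsAlgClosed.splits ((minpoly ℚ α).map (algebraMap ℚ ℂ)))
    rw [natDegree_map] at h1
    exact h1
  have hZpos : 0 < Z'.card := by
    rw [← hcard, hcardM]; exact minpoly.natDegree_pos hintQ
  refine ⟨P', Z', hPm, minpoly.irreducible hint, htoR, ?_, Finset.card_pos.1 hZpos, ?_, ?_⟩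
  · intro a ha
    have : a ∈ M.map Complex.re := by rw [← hZval]; exact ha
    obtain ⟨z, hz, rfl⟩ := Multiset.mem_map.1 this
    exact hpos z hz
  · have h1 : M.sum = ((∑ a ∈ Z', a : ℝ) : ℂ) := by
      have e : ∑ a ∈ Z', a = (Z'.val.map fun a => a).sum := rfl
      rw [e, hZval, Multiset.map_map]
      have e2 : (((Multiset.map ((fun a => a) ∘ Complex.re) M).sum : ℝ) : ℂ)
          = (Multiset.map (fun z => ((z.re : ℝ) : ℂ)) M).sum := by
        have := (Complex.ofRealHom : ℝ →+* ℂ).map_multiset_sum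
          (Multiset.map ((fun a => a) ∘ Complex.re) M)
        rw [Multiset.map_map] at this
        exact this
      rw [e2]
      conv_lhs => rw [← Multiset.map_id M]
      congr 1
      exact Multiset.map_congr rfl fun z hz => (hre z hz).symm
    rw [meanTrace, ← hM, h1, ← hcardM, hcard]
    push_cast
    rfl
  · rw [← hcardM, hcard]

/-- From a real certificate to mean traces. -/
lemma mem_of_certR {P : ℤ[X]} {Z : Finset ℝ} (hroots : toR P = ∏ a ∈ Z, (X - C a))
    (hpos : ∀ a ∈ Z, 0 < a) (hne : Z.Nonempty) {N : ℕ} (hN : 0 < N) {r : Fin N → ℝ}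
    {x : Fin (N + 1) → ℝ} {b : ℕ} (hcert : CertR r x ![P, X] ![b, 1]) {q : ℚ}
    (hmean : (∑ l, r l) / N < (q : ℝ)) (hlast : ∀ a ∈ Z, a < r ⟨N - 1, by omega⟩) :
    (q : ℝ) ∈ meanTraceSet := by
  classical
  set m := Z.max' hne with hm
  have hmZ : m ∈ Z := Finset.max'_mem Z hne
  obtain ⟨a, ha1, ha2⟩ := exists_rat_btwn (hlast m hmZ)
  obtain ⟨r', x', hcert', hmean', hlast'⟩ := hcert.exists_cert hmean ha2
  have ha0 : (0 : ℝ) < a := (hpos m hmZ).trans ha1
  have ha0' : 0 < a := by exact_mod_cast ha0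
  refine hcert'.above' a ?_ ?_ q ?_
  · intro _
    exact_mod_cast hlast'.le
  · intro i y z hy hyz
    fin_cases i
    · change |aeval y P| ≤ |aeval z P|
      have h3 : ∀ w : ℚ, a ≤ w → ((|aeval w P| : ℚ) : ℝ) = ∏ c ∈ Z, ((w : ℝ) - c) := by
        intro w hw
        have hw' : (a : ℝ) ≤ w := by exact_mod_cast hw
        rw [Rat.cast_abs, cast_aeval, toR_eval_of_roots hroots]
        apply abs_of_nonneg
        refine Finset.prod_nonneg fun c hc => ?_
        have := Finset.le_max' Z c hc
        linarith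
      have h4 : ((|aeval y P| : ℚ) : ℝ) ≤ ((|aeval z P| : ℚ) : ℝ) := by
        rw [h3 y hy, h3 z (hy.trans hyz)]
        have hy' : (a : ℝ) ≤ y := by exact_mod_cast hy
        have hyz' : (y : ℝ) ≤ z := by exact_mod_cast hyz
        refine Finset.prod_le_prod (fun c hc => ?_) fun c _ => by linarith
        have := Finset.le_max' Z c hc
        linarith
      exact_mod_cast h4
    · change |aeval y (X : ℤ[X])| ≤ |aeval z (X : ℤ[X])|
      rw [aeval_X, aeval_X, abs_of_pos (by linarith), abs_of_pos (by linarith)]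
      exact hyz
  · have : (((∑ l, r' l) / (N : ℚ) : ℚ) : ℝ) < ((q : ℚ) : ℝ) := hmean'
    exact_mod_cast this.le

/-- **One totally positive algebraic integer of degree `d` and mean trace `t` puts every rational
number from `t + 480 (1 + log d) / d` on into the set of mean traces.** -/
theorem rat_mem_of_log {P : ℤ[X]} {Z : Finset ℝ} (hP : P.Monic) (hirr : Irreducible P)
    (hroots : toR P = ∏ a ∈ Z, (X - C a)) (hpos : ∀ a ∈ Z, 0 < a) (hne : Z.Nonempty) (q : ℚ)
    (hq : (∑ a ∈ Z, a) / Z.card + 480 * (1 + Real.log Z.card) / Z.card ≤ q) :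
    (q : ℝ) ∈ meanTraceSet := by
  have hd1 : (1 : ℝ) ≤ Z.card := by exact_mod_cast Finset.card_pos.2 hne
  set d : ℝ := (Z.card : ℝ) with hdd
  have hd0 : 0 < d := by linarith
  have hlog0 : 0 ≤ Real.log d := Real.log_nonneg hd1
  set E : ℝ := 1 + Real.log d with hE
  have hE1 : 1 ≤ E := by rw [hE]; linarith
  set t : ℝ := (∑ a ∈ Z, a) / d with ht
  have ht0 : 0 ≤ t := div_nonneg (Finset.sum_nonneg fun a ha => (hpos a ha).le) hd0.le
  rcases lt_or_ge d (48 * E) with h | h
  · -- small degree
    have h1 : (10 : ℝ) < 480 * E / d := by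
      rw [lt_div_iff₀ hd0]; linarith
    refine T1.above q ?_
    have h2 : (10 : ℝ) ≤ q := by linarith
    have h3 : (10 : ℚ) ≤ q := by exact_mod_cast h2
    refine le_trans (by norm_num) h3
  · set y : ℝ := d / (24 * E) with hy
    have hy2 : 2 ≤ y := by
      rw [hy, le_div_iff₀ (by positivity)]; linarith
    set S : ℕ := ⌊y⌋₊ with hS
    have hSy : (S : ℝ) ≤ y := Nat.floor_le (by linarith)
    have hSy' : y < S + 1 := Nat.lt_floor_add_one y
    have hS2 : 2 ≤ S := by
      rw [hS]; exact Nat.le_floor (by exact_mod_cast hy2)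
    have hS2' : (2 : ℝ) ≤ S := by exact_mod_cast hS2
    have hS0 : (0 : ℝ) < S := by linarith
    set n : ℕ := Nat.clog 2 (8 * S + 1) with hn
    have hn1 : 8 * S + 1 ≤ 2 ^ n := Nat.le_pow_clog (by norm_num) _
    have hn2 : 2 ^ (n - 1) < 8 * S + 1 := Nat.pow_pred_clog_lt_self (by norm_num) (by omega)
    have hn0 : 1 ≤ n := by
      by_contra h0
      have : n = 0 := by omega
      rw [this] at hn1
      omega
    have hn1' : 8 * (S : ℝ) ≤ 2 ^ n - 1 := by
      have : ((8 * S + 1 : ℕ) : ℝ) ≤ ((2 ^ n : ℕ) : ℝ) := by exact_mod_cast hn1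
      push_cast at this
      linarith
    have hlogn : ((n : ℝ) - 1) * Real.log 2 ≤ 3 * Real.log 2 + Real.log S := by
      have h1 : ((2 ^ (n - 1) : ℕ) : ℝ) ≤ ((8 * S : ℕ) : ℝ) := by exact_mod_cast (by omega)
      push_cast at h1
      have h2 := Real.log_le_log (by positivity) h1
      rw [Real.log_pow, Real.log_mul (by norm_num) hS0.ne',
        show (8 : ℝ) = 2 ^ 3 by norm_num, Real.log_pow, Nat.cast_sub hn0] at h2
      push_cast at h2
      exact h2
    have hSd : (S : ℝ) ≤ d := by
      refine hSy.trans ?_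
      rw [hy, div_le_iff₀ (by positivity)]
      nlinarith
    have hlogS : Real.log S ≤ Real.log d := Real.log_le_log hS0 hSd
    have hcond : 1 + 6 * Real.log 2 * ((n : ℝ) - 1) < 0.57 * (1 / S) * d := by
      have h1 : 24 * E ≤ d / S := by
        rw [le_div_iff₀ hS0]
        rw [hy, le_div_iff₀ (by positivity)] at hSy
        linarith
      have h2 : 0.57 * (1 / (S : ℝ)) * d = 0.57 * (d / S) := by ring
      rw [h2]
      have h3 := Real.log_two_lt_d9
      have h4 : 1 + 6 * Real.log 2 * ((n : ℝ) - 1) ≤ 13.48 + 6 * Real.log d := by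
        linarith
      have h5 : 13.48 + 6 * Real.log d < 0.57 * (24 * E) := by
        rw [hE]; linarith
      linarith
    have hT : ∑ a ∈ Z, a ≤ t * Z.card := by
      rw [← hdd, ht, div_mul_cancel₀ _ hd0.ne']
    have hqS : t + 10 / S < q := by
      have h1 : 10 / (S : ℝ) < 480 * E / d := by
        have h2 : d < 48 * E * S := by
          have h3 : y < 2 * S := by linarith
          rw [hy, div_lt_iff₀ (by positivity)] at h3
          linarith
        rw [div_lt_div_iff₀ hS0 hd0]
        linarith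
      linarith
    obtain ⟨N, hN, r, x, b, hcert, hmean, hlast⟩ := exists_certR_multi hP hirr hroots hpos hne
      ht0 hT hS2 hn0 hn1' (by rw [← hdd]; exact hcond) hqS
    exact mem_of_certR hroots hpos hne hN hcert hmean hlast

/-- Limit points are at most `meanTrace α + 480 (1 + log d) / d`. -/
theorem isLimitPoint_of_log {P : ℤ[X]} {Z : Finset ℝ} (hP : P.Monic) (hirr : Irreducible P)
    (hroots : toR P = ∏ a ∈ Z, (X - C a)) (hpos : ∀ a ∈ Z, 0 < a) (hne : Z.Nonempty) :
    IsLimitPoint meanTraceSet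
      ((∑ a ∈ Z, a) / Z.card + 480 * (1 + Real.log Z.card) / Z.card) :=
  isLimitPoint_of_rat (fun q hq => rat_mem_of_log hP hirr hroots hpos hne q hq) _ le_rfl

end Pool.Agent.STP
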