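import Mathlib
import Pool.Agent.Lib.MP_8ca0c8_nt_TL.Final

/-!
# Counting the mean traces below the smallest limit point
-/

namespace Pool.Agent.STP

open Polynomial Topology

/-- from `ε d ≤ 480 (1 + log d)` to an explicit bound for `d` -/
lemma degree_bound {ε d : ℝ} (hε : 0 < ε) (hε2 : ε ≤ 1 / 2) (hd : 1 ≤ d)
    (h : ε * d ≤ 480 * (1 + Real.log d)) :
    d ≤ 11000 * (ε⁻¹ * Real.log ε⁻¹) ∧ 1 + Real.log d ≤ 17 * Real.log ε⁻¹ := by
  have hd0 : 0 < d := by linarith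
  set L : ℝ := Real.log ε⁻¹ with hL
  have hL2 : 0.693 ≤ L := by
    have h1 : (2 : ℝ) ≤ ε⁻¹ := by
      rw [le_inv_comm₀ two_pos hε]; linarith
    have h2 := Real.log_le_log two_pos h1
    have h3 := Real.log_two_gt_d9
    linarith
  set y : ℝ := ε * d with hy
  have hy0 : 0 < y := by positivity
  have hlogd : Real.log d = Real.log y + L := by
    rw [hy, Real.log_mul hε.ne' hd0.ne', hL, Real.log_inv]; ring
  have h960 : Real.log 960 ≤ 6.94 := by
    have h1 : Real.log 960 ≤ Real.log (2 ^ 10) :=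
      Real.log_le_log (by norm_num) (by norm_num)
    rw [Real.log_pow] at h1
    have := Real.log_two_lt_d9
    push_cast at h1
    linarith
  have h1 : Real.log (y / 960) ≤ y / 960 - 1 := Real.log_le_sub_one_of_pos (by positivity)
  rw [Real.log_div hy0.ne' (by norm_num)] at h1
  have h2 : y ≤ 960 * (L + 6.94) := by
    rw [hlogd] at h
    linarith
  have h3 : y ≤ 11000 * L := by
    have : 960 * (L + 6.94) ≤ 11000 * L := by linarith
    linarith
  have hde : d = ε⁻¹ * y := by rw [hy]; field_simp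
  refine ⟨?_, ?_⟩
  · rw [hde]
    have := mul_le_mul_of_nonneg_left h3 (by positivity : 0 ≤ ε⁻¹)
    linarith
  · have h4 : Real.log y ≤ Real.log (11000 * L) := Real.log_le_log hy0 h3
    have e : Real.log (11000 * L) = Real.log 11000 + Real.log L :=
      Real.log_mul (by norm_num) (ne_of_gt (by linarith))
    rw [e] at h4
    have h5 : Real.log L ≤ L - 1 := Real.log_le_sub_one_of_pos (by linarith)
    have h6 : Real.log 11000 ≤ 14 * 0.6931471808 := by
      have h7 : Real.log 11000 ≤ Real.log (2 ^ 14) :=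
        Real.log_le_log (by norm_num) (by norm_num)
      rw [Real.log_pow] at h7
      have := Real.log_two_lt_d9
      push_cast at h7
      linarith
    rw [hlogd]
    linarith

/-- For `c < ℓ` the number of mean traces up to `c` is `O(ε⁻¹ log² ε⁻¹)`, where `ε = ℓ - c`. -/
theorem count_bound {l : ℝ} (hl : {x : ℝ | IsLimitPoint meanTraceSet x} = Set.Ici l) {ε : ℝ}
    (hε : 0 < ε) (hε2 : ε ≤ 1 / 2) :
    (meanTraceSet ∩ Set.Iic (l - ε)).Finite ∧
      ((meanTraceSet ∩ Set.Iic (l - ε)).ncard : ℝ) ≤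
        10 ^ 8 * (ε⁻¹ * (Real.log ε⁻¹) ^ 2) := by
  classical
  set L : ℝ := Real.log ε⁻¹ with hL
  have hL2 : 0.693 ≤ L := by
    have h1 : (2 : ℝ) ≤ ε⁻¹ := by
      rw [le_inv_comm₀ two_pos hε]; linarith
    have h2 := Real.log_le_log two_pos h1
    have h3 := Real.log_two_gt_d9
    linarith
  set M : ℝ := 8160 * L with hM
  set D : ℕ := ⌊11000 * (ε⁻¹ * L)⌋₊ with hD
  set F : Finset ℝ := (Finset.Icc 1 D).biUnion fun d : ℕ =>
    (Finset.Icc ⌈l * d - M⌉ ⌊l * d⌋).image (fun k : ℤ => (k : ℝ) / d) with hF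
  have hsub : meanTraceSet ∩ Set.Iic (l - ε) ⊆ (F : Set ℝ) := by
    rintro t ⟨ht, htl⟩
    obtain ⟨P, Z, h1, h2, h3, h4, h5, h6⟩ := mem_meanTraceSet_iff ht
    have hlim := isLimitPoint_of_log h1 h2 h3 h4 h5
    have hle : l ≤ (∑ a ∈ Z, a) / Z.card + 480 * (1 + Real.log Z.card) / Z.card := by
      have : ((∑ a ∈ Z, a) / Z.card + 480 * (1 + Real.log Z.card) / Z.card) ∈
        {x : ℝ | IsLimitPoint meanTraceSet x} := hlim
      rw [hl] at this
      exact this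
    have hd1 : (1 : ℝ) ≤ Z.card := by exact_mod_cast Finset.card_pos.2 h5
    have hd0 : (0 : ℝ) < Z.card := by linarith
    have htl' : t ≤ l - ε := htl
    rw [← h6] at hle
    have h7 : l * Z.card ≤ t * Z.card + 480 * (1 + Real.log Z.card) := by
      have := mul_le_mul_of_nonneg_right hle hd0.le
      have e : (t + 480 * (1 + Real.log Z.card) / Z.card) * Z.card
          = t * Z.card + 480 * (1 + Real.log Z.card) := by field_simp
      rwa [e] at this
    have h8 : t * Z.card ≤ (l - ε) * Z.card := mul_le_mul_of_nonneg_right htl' hd0.le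
    obtain ⟨h9, h10⟩ := degree_bound hε hε2 hd1 (by linarith)
    have hs := sum_int h3
    have htz : t * Z.card = ((-P.nextCoeff : ℤ) : ℝ) := by
      rw [h6, div_mul_cancel₀ _ hd0.ne', hs]
    rw [Finset.mem_coe, hF, Finset.mem_biUnion]
    refine ⟨Z.card, Finset.mem_Icc.2 ⟨Finset.card_pos.2 h5, ?_⟩, ?_⟩
    · rw [hD]; exact Nat.le_floor h9
    · rw [Finset.mem_image]
      refine ⟨-P.nextCoeff, Finset.mem_Icc.2 ⟨?_, ?_⟩, ?_⟩
      · rw [Int.ceil_le, ← htz, hM]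
        linarith
      · rw [Int.le_floor, ← htz]
        have : 0 ≤ ε * Z.card := by positivity
        linarith
      · rw [← htz]; field_simp
  have hfin : (meanTraceSet ∩ Set.Iic (l - ε)).Finite := F.finite_toSet.subset hsub
  refine ⟨hfin, ?_⟩
  have hM0 : 0 ≤ M := by rw [hM]; linarith
  have hε0 : 0 < ε⁻¹ := inv_pos.2 hε
  have hcard : (F.card : ℝ) ≤ D * (M + 1) := by
    have h1 : (F.card : ℝ) ≤ ∑ d ∈ Finset.Icc 1 D,
        (((Finset.Icc ⌈l * (d : ℝ) - M⌉ ⌊l * (d : ℝ)⌋).image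
          (fun k : ℤ => (k : ℝ) / (d : ℝ))).card : ℝ) := by
      rw [hF]
      exact_mod_cast Finset.card_biUnion_le
    refine h1.trans ?_
    have h2 : ∀ d ∈ Finset.Icc 1 D, (((Finset.Icc ⌈l * (d : ℝ) - M⌉ ⌊l * (d : ℝ)⌋).image
          (fun k : ℤ => (k : ℝ) / (d : ℝ))).card : ℝ) ≤ M + 1 := by
      intro d _
      have h3 : (((Finset.Icc ⌈l * (d : ℝ) - M⌉ ⌊l * (d : ℝ)⌋).image
          (fun k : ℤ => (k : ℝ) / (d : ℝ))).card : ℝ) ≤
          ((Finset.Icc ⌈l * (d : ℝ) - M⌉ ⌊l * (d : ℝ)⌋).card : ℝ) := by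
        exact_mod_cast Finset.card_image_le
      refine h3.trans ?_
      rw [Int.card_Icc]
      have h4 : ((⌊l * (d : ℝ)⌋ + 1 - ⌈l * (d : ℝ) - M⌉ : ℤ) : ℝ) ≤ M + 1 := by
        push_cast
        have h5 := Int.floor_le (l * (d : ℝ))
        have h6 := Int.le_ceil (l * (d : ℝ) - M)
        linarith
      rcases le_or_gt 0 (⌊l * (d : ℝ)⌋ + 1 - ⌈l * (d : ℝ) - M⌉) with h7 | h7
      · have h8 : (((⌊l * (d : ℝ)⌋ + 1 - ⌈l * (d : ℝ) - M⌉).toNat : ℤ) : ℝ)
            = ((⌊l * (d : ℝ)⌋ + 1 - ⌈l * (d : ℝ) - M⌉ : ℤ) : ℝ) := by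
          rw [Int.toNat_of_nonneg h7]
        rw [Int.cast_natCast] at h8
        rw [h8]; exact h4
      · rw [Int.toNat_of_nonpos h7.le]
        push_cast
        linarith
    refine (Finset.sum_le_sum h2).trans ?_
    rw [Finset.sum_const, Nat.card_Icc, nsmul_eq_mul]
    simp
  have hDle : (D : ℝ) ≤ 11000 * (ε⁻¹ * L) := Nat.floor_le (by positivity)
  have h1 : ((meanTraceSet ∩ Set.Iic (l - ε)).ncard : ℝ) ≤ F.card := by
    have := Set.ncard_le_ncard hsub F.finite_toSet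
    rw [Set.ncard_coe_finset] at this
    exact_mod_cast this
  have h2 : (D : ℝ) * (M + 1) ≤ (11000 * (ε⁻¹ * L)) * (8163 * L) := by
    refine mul_le_mul hDle ?_ (by linarith) (by positivity)
    rw [hM]; linarith
  have h3 : (11000 * (ε⁻¹ * L)) * (8163 * L) = 89793000 * (ε⁻¹ * L ^ 2) := by ring
  have h4 : 0 ≤ ε⁻¹ * L ^ 2 := by positivity
  have h5 : (89793000 : ℝ) * (ε⁻¹ * L ^ 2) ≤ 10 ^ 8 * (ε⁻¹ * L ^ 2) := by
    have : (89793000 : ℝ) ≤ 10 ^ 8 := by norm_num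
    exact mul_le_mul_of_nonneg_right this h4
  linarith

theorem log_lower_term : ∃ l : ℝ, {x : ℝ | IsLimitPoint meanTraceSet x} = Set.Ici l ∧
    (∀ α : ℂ, IsTotallyPositive α → ∀ t : ℝ, meanTrace α = (t : ℂ) →
      l * (minpoly ℚ α).natDegree - 480 * (1 + Real.log (minpoly ℚ α).natDegree) ≤
        t * (minpoly ℚ α).natDegree ∧
      ∀ q : ℚ, t + 480 * (1 + Real.log (minpoly ℚ α).natDegree) / (minpoly ℚ α).natDegree ≤ q →
        (q : ℝ) ∈ meanTraceSet) ∧
    ∀ ε : ℝ, 0 < ε → ε ≤ 1 / 2 → (meanTraceSet ∩ Set.Iic (l - ε)).Finite ∧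
      ((meanTraceSet ∩ Set.Iic (l - ε)).ncard : ℝ) ≤ 10 ^ 8 * (ε⁻¹ * (Real.log ε⁻¹) ^ 2) := by
  obtain ⟨l, hl, _, _⟩ := structure_theorem
  refine ⟨l, hl, ?_, fun ε hε hε2 => count_bound hl hε hε2⟩
  intro α hα t ht
  obtain ⟨P, Z, h1, h2, h3, h4, h5, h6, h7⟩ := exists_data_deg hα
  have h8 : t = (∑ a ∈ Z, a) / Z.card := by
    rw [h6] at ht
    exact_mod_cast ht.symm
  have hd1 : (1 : ℝ) ≤ Z.card := by exact_mod_cast Finset.card_pos.2 h5
  have hd0 : (0 : ℝ) < Z.card := by linarith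
  rw [h7, h8]
  refine ⟨?_, fun q hq => rat_mem_of_log h1 h2 h3 h4 h5 q hq⟩
  have hlim := isLimitPoint_of_log h1 h2 h3 h4 h5
  have hle : l ≤ (∑ a ∈ Z, a) / Z.card + 480 * (1 + Real.log Z.card) / Z.card := by
    have : ((∑ a ∈ Z, a) / Z.card + 480 * (1 + Real.log Z.card) / Z.card) ∈
      {x : ℝ | IsLimitPoint meanTraceSet x} := hlim
    rw [hl] at this
    exact this
  have h9 := mul_le_mul_of_nonneg_right hle hd0.le
  have e : ((∑ a ∈ Z, a) / Z.card + 480 * (1 + Real.log Z.card) / Z.card) * Z.card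
      = (∑ a ∈ Z, a) / Z.card * Z.card + 480 * (1 + Real.log Z.card) := by field_simp
  rw [e] at h9
  linarith

end Pool.Agent.STP
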